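import Pool.Agent.Lib.helper8.VecL

set_option autoImplicit false
open Filter
open Pool.Agent.Lib.helper8.BetaK

namespace Pool.Agent.H.MP_25e1d2_co

attribute [local instance] Ultrafilter.add Ultrafilter.addSemigroup

def fm (u v : ℤ) : ℤ × ℤ →+ ℤ :=
  AddMonoidHom.mk' (fun x => u * x.1 + v * x.2) (by
    intro x y; simp only [Prod.fst_add, Prod.snd_add]; ring)

@[simp] lemma fm_apply (u v : ℤ) (x : ℤ × ℤ) : fm u v x = u * x.1 + v * x.2 := rfl

def ph : Fin 5 → ℤ × ℤ →+ ℤ := ![fm 1 0, fm 0 1, fm 1 1, fm 2 1, fm 1 2]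

theorem exists_omega : ∃ (w : Ultrafilter (ℤ × ℤ)) (e : Ultrafilter ℤ),
    Pos e ∧ e + e = e ∧ w.map (fm 1 0) = e ∧ w.map (fm 0 1) = e ∧ w.map (fm 1 1) + e = e ∧
      w.map (fm 2 1) + (w.map (fm 1 2) + e) = e := by
  obtain ⟨e, he, hp⟩ := exists_minId_pos
  let E : Fin 5 → Ultrafilter ℤ := fun i => sc (ph i (1, 1)) e
  have hE : ∀ i, MinId (E i) := fun i => he.scale (by fin_cases i <;> simp [ph])
  have hb : ∀ i, (Lt e ((1, 1) : ℤ × ℤ)).map (ph i) = E i := fun i => map_Lt _ _ _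
  have hid : ∀ (l : ℤ × ℤ) (i : Fin 5), ph i l ≠ 0 → MinId ((Lt e l).map (ph i)) := fun l i h => by
    rw [map_Lt]; exact he.scale h
  have hz : ∀ (l : ℤ × ℤ) (i : Fin 5), ph i l = 0 → (Lt e l).map (ph i) = pure 0 := fun l i h => by
    rw [map_Lt, h, sc_zero]
  have s1 := Sing.idem hE _ hb 2 (Lt e (1, -1)) (hz _ _ (by simp [ph]))
    (fun i hi => hid _ _ (by fin_cases i <;> simp_all [ph])) (Lt e (1, 0))
    (hid _ _ (by simp [ph])).1
  have s2 := Sing.idem hE _ hb 3 (Lt e (1, -2)) (hz _ _ (by simp [ph]))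
    (fun i hi => hid _ _ (by fin_cases i <;> simp_all [ph])) (Lt e (1, 0))
    (hid _ _ (by simp [ph])).1
  have s3 := Sing.idem hE _ hb 3 (Lt e (1, -2)) (hz _ _ (by simp [ph]))
    (fun i hi => hid _ _ (by fin_cases i <;> simp_all [ph])) (Lt e (0, 1))
    (hid _ _ (by simp [ph])).1
  obtain ⟨xS, ⟨⟨wS, a1, a2⟩, a3, a4⟩, a5⟩ := s1.inv hE _ hb
  obtain ⟨xU, ⟨⟨wU, b1, b2⟩, b3, b4⟩, b5⟩ := (s2.add hE s3).inv hE _ hb
  have E0 : E 0 = e := by simp [E, ph, sc_one]
  have E1 : E 1 = e := by simp [E, ph, sc_one]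
  have E2 : E 2 = sc 2 e := by simp [E, ph]
  have E3 : E 3 = sc 3 e := by simp [E, ph]
  have E4 : E 4 = sc 3 e := by simp [E, ph]
  have i3 : sc 3 e + sc 3 e = sc 3 e := (he.scale three_ne_zero).1
  simp only [map_Lt, E2, E3] at a3 a4 a5 b3 b4 b5
  simp only [ph, Matrix.cons_val, fm_apply, mul_one, mul_zero, add_zero, zero_add, sc_one]
    at a5 b5
  have k1 : e + xS + e = e := he.sandwich a5 a3 a4
  have k2 : e + (xU + sc 2 e + sc 3 e) + e = e := by
    apply he.sandwich (e := sc 3 e)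
    · calc xU + sc 2 e + sc 3 e + (sc 3 e + e + sc 3 e)
          = (xU + sc 3 e) + sc 2 e + sc 3 e + (sc 3 e + e + sc 3 e) := by rw [b4]
        _ = sc 3 e := by simpa only [add_assoc] using b5
    · simp only [← add_assoc, b3]
    · simp only [add_assoc, i3]
  refine ⟨Lt e (0, 1) + wS + wU, e, hp, he.1, ?_, ?_, ?_, ?_⟩
  · have h1 : wS.map (fm 1 0) = e := (a1 0 (by decide)).trans E0
    have h2 : wU.map (fm 1 0) = e := (b1 0 (by decide)).trans E0
    simp only [hom_add, map_Lt, h1, h2]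
    simp [sc_zero, zero_add', he.1]
  · have h1 : wS.map (fm 0 1) = e := (a1 1 (by decide)).trans E1
    have h2 : wU.map (fm 0 1) = e := (b1 1 (by decide)).trans E1
    simp only [hom_add, map_Lt, h1, h2]
    simp [sc_one, he.1]
  · have h1 : wS.map (fm 1 1) = xS := a2
    have h2 : wU.map (fm 1 1) = sc 2 e := (b1 2 (by decide)).trans E2
    simp only [hom_add, map_Lt, h1, h2]
    simp only [fm_apply, mul_one, mul_zero, zero_add, sc_one]
    rw [add_assoc e xS, a4, k1]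
  · have h1 : wS.map (fm 2 1) = sc 3 e := (a1 3 (by decide)).trans E3
    have h2 : wU.map (fm 2 1) = xU := b2
    have h3 : wS.map (fm 1 2) = sc 3 e := (a1 4 (by decide)).trans E4
    have h4 : wU.map (fm 1 2) = sc 3 e := (b1 4 (by decide)).trans E4
    simp only [hom_add, map_Lt, h1, h2, h3, h4]
    simp only [fm_apply, mul_one, mul_zero, zero_add, sc_one]
    rw [add_assoc e, b3, add_assoc (sc 2 e), i3]
    simpa only [add_assoc] using k2

def tr : Finset (Fin 3 × (ℤ × ℤ) × Fin 3) :=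
  {(0, (0, 0), 0), (0, (1, 0), 0), (0, (0, 1), 0), (0, (1, 1), 0), (0, (2, 1), 1),
    (1, (1, 2), 0), (0, (0, 1), 2)}

theorem exists_seq (C : ℤ → Prop) (w : Ultrafilter (ℤ × ℤ)) (e : Ultrafilter ℤ)
    (hp : Pos e) (h0 : e + e = e) (h1 : w.map (fm 1 0) = e) (h2 : w.map (fm 0 1) = e)
    (h3 : w.map (fm 1 1) + e = e) (h4 : w.map (fm 2 1) + (w.map (fm 1 2) + e) = e)
    (hC : ∀ᶠ z in (e : Filter ℤ), C z) :
    ∃ x : ℕ → ℤ × ℤ, (∀ n, 0 < (x n).1 + (x (n + 1)).2) ∧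
      ∀ (s : ℕ → Fin 3) (t : ℕ → ℤ × ℤ) (n : ℕ), s 0 = 0 → s n = 2 →
      (∀ j < n, (s j, t j, s (j + 1)) ∈ tr) →
        C (∑ j ∈ Finset.range n, fm (t j).1 (t j).2 (x j)) := by
  let P : Fin 3 → ℤ → Prop := ![fun d => ∀ᶠ z in (e : Filter ℤ), C (d + z),
    fun d => ∀ᶠ z in ((w.map (fm 1 2) + e : Ultrafilter ℤ) : Filter ℤ), C (d + z), C]
  have key : ∀ (u v : ℤ) (p q : Ultrafilter ℤ), w.map (fm u v) + q = p → ∀ d : ℤ,
      (∀ᶠ z in (p : Filter ℤ), C (d + z)) →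
      ∀ᶠ x in (w : Filter (ℤ × ℤ)), ∀ᶠ z in (q : Filter ℤ), C (d + fm u v x + z) := by
    intro u v p q h d hd
    rw [← h, Ultrafilter.eventually_add] at hd
    have hd' : ∀ᶠ x in (w : Filter (ℤ × ℤ)), ∀ᶠ z in (q : Filter ℤ), C (d + (fm u v x + z)) := hd
    simpa only [add_assoc] using hd'
  obtain ⟨x, hx1, hx2⟩ := automaton w tr (fun t x => fm t.1 t.2 x) P (by
      intro t ht d hd
      simp only [tr, Finset.mem_insert, Finset.mem_singleton] at ht
      rcases ht with rfl | rfl | rfl | rfl | rfl | rfl | rfl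
      · exact Eventually.of_forall fun x => by simpa using hd
      · exact key 1 0 e e (by rw [h1, h0]) d hd
      · exact key 0 1 e e (by rw [h2, h0]) d hd
      · exact key 1 1 e e h3 d hd
      · exact key 2 1 e _ h4 d hd
      · exact key 1 2 _ e rfl d hd
      · have hd' : ∀ᶠ z in (e : Filter ℤ), C (d + z) := hd
        rw [← h2] at hd'
        exact hd')
    (fun x y => 0 < x.1 + y.2) (fun x => by
      have := hp (-x.1)
      rw [← h2] at this
      have h' : ∀ᶠ y in (w : Filter (ℤ × ℤ)), -x.1 < fm 0 1 y := this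
      filter_upwards [h'] with y hy
      simp only [fm_apply] at hy
      omega) 0 (by simpa [P] using hC)
  refine ⟨x, hx1, fun s t n hs0 hsn hA => ?_⟩
  have := hx2 s t n hs0 hA
  rw [hsn] at this
  exact this

end Pool.Agent.H.MP_25e1d2_co
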